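import Pool.Agent.W744.GL.Stm
import Pool.Agent.Helper503.Gp.Split
import Pool.Agent.Helper503.Gp.Harn

set_option autoImplicit false

open Metric Set Filter Topology Complex
open scoped ComplexConjugate

namespace Pool.Agent.W899.GL.SPLIT

open Pool.Agent.Helper503.Gp

theorem PH_inv {a b : ℂ} (ha : 0 < a.im) (hb : 0 < b.im) : PH (-a⁻¹) (-b⁻¹) = PH a b := by
  unfold PH
  rw [Complex.neg_im, Complex.neg_im, Complex.neg_re, Complex.neg_re, Complex.inv_re,
    Complex.inv_im, Complex.inv_re, Complex.inv_im]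
  obtain ⟨x, y⟩ := a
  obtain ⟨u, v⟩ := b
  simp only at ha hb ⊢
  have hA : 0 < Complex.normSq ⟨x, y⟩ := by
    rw [Complex.normSq_mk]
    nlinarith [mul_self_nonneg x, mul_pos ha ha]
  have hB : 0 < Complex.normSq ⟨u, v⟩ := by
    rw [Complex.normSq_mk]
    nlinarith [mul_self_nonneg u, mul_pos hb hb]
  have eA : Complex.normSq ⟨x, y⟩ = x * x + y * y := Complex.normSq_mk _ _
  have eB : Complex.normSq ⟨u, v⟩ = u * u + v * v := Complex.normSq_mk _ _
  generalize Complex.normSq ⟨x, y⟩ = A at *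
  generalize Complex.normSq ⟨u, v⟩ = B at *
  have hden : (-(x / A) - -(u / B)) ^ 2 + (-(-y / A) + -(-v / B)) ^ 2 =
      ((x - u) ^ 2 + (y + v) ^ 2) / (A * B) := by
    rw [eq_div_iff (by positivity)]
    field_simp
    rw [eA, eB]
    ring
  rw [hden]
  have hp : 0 < (x - u) ^ 2 + (y + v) ^ 2 := by positivity
  field_simp

theorem neg_inv_I : (-(I : ℂ)⁻¹) = I := by
  rw [Complex.inv_I, neg_neg]

theorem fin_of {ι : Type} {w : ι → ℂ} {A : Set ι} (hA : BlaOn w A)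
    (hn : ∀ i ∈ A, ‖w i‖ ≤ 1) (t : ℝ) (ht : 0 < t) : {i | i ∈ A ∧ t ≤ (w i).im}.Finite := by
  have h1 := hA.2.tendsto_cofinite_zero
  have h2 : ∀ᶠ i : A in cofinite, PH (w i) I < t := h1.eventually_lt_const ht
  rw [Filter.eventually_cofinite] at h2
  refine (h2.image (fun i : A => (i : ι))).subset ?_
  rintro i ⟨hi, hti⟩
  refine ⟨⟨i, hi⟩, ?_, rfl⟩
  simp only [Set.mem_ofPred_eq, not_lt]
  have hnn : (w i).re ^ 2 + (w i).im ^ 2 ≤ 1 := by
    have h3 := hn i hi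
    have h4 : Complex.normSq (w i) ≤ 1 := by
      rw [Complex.normSq_eq_norm_sq]
      have := norm_nonneg (w i)
      nlinarith
    rw [Complex.normSq_apply] at h4
    nlinarith
  have him : 0 < (w i).im := hA.1 i hi
  have him1 : (w i).im ≤ 1 := by nlinarith [sq_nonneg (w i).re]
  unfold PH
  rw [Complex.I_re, Complex.I_im, le_div_iff₀ (by positivity)]
  nlinarith [sq_nonneg (w i).re]

theorem half {ι : Type} {w : ι → ℂ} {A : Set ι} (hA : BlaOn w A) (hn : ∀ i ∈ A, ‖w i‖ ≤ 1) :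
    ∃ C : Set ι, C ⊆ A ∧ ∀ e : ℂ, 0 < e.im →
      mu w C e ≤ 8 * mu w (A \ C) e + 1000 ∧ mu w (A \ C) e ≤ 8 * mu w C e + 1000 := by
  obtain ⟨κ, hκ⟩ := split w A hA.1 (fin_of hA hn) (fun e he => summable_PH hA he) 2 (by norm_num)
  refine ⟨A ∩ κ ⁻¹' {0}, Set.inter_subset_left, ?_⟩
  intro e he
  have hc : A \ (A ∩ κ ⁻¹' {0}) = A ∩ κ ⁻¹' {1} := by
    ext i
    simp only [Set.mem_sdiff, Set.mem_inter_iff, Set.mem_preimage, Set.mem_singleton_iff, not_and]
    constructor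
    · rintro ⟨h1, h2⟩
      refine ⟨h1, ?_⟩
      have := h2 h1
      omega
    · rintro ⟨h1, h2⟩
      refine ⟨h1, fun _ => ?_⟩
      rw [h2]
      decide
  rw [hc]
  have h1 := hκ e he 1 one_pos le_rfl (fun i hi => PH_le_one (hA.1 i hi) he)
  rw [Real.sqrt_one, mul_one] at h1
  exact ⟨h1 0 1, h1 1 0⟩

theorem mu_inv {ι : Type} {w : ι → ℂ} {A : Set ι} (hA : ∀ i ∈ A, 0 < (w i).im) {e : ℂ}
    (he : 0 < e.im) : mu (fun i => -(w i)⁻¹) A (-e⁻¹) = mu w A e := by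
  unfold mu
  refine tsum_congr (fun i => ?_)
  exact PH_inv (hA i i.2) he

theorem im_inv {a : ℂ} (ha : 0 < a.im) : 0 < (-a⁻¹).im := by
  rw [Complex.neg_im, Complex.inv_im, neg_div, neg_neg]
  refine div_pos ha ?_
  rw [Complex.normSq_pos]
  rintro rfl
  simp at ha

theorem main : Pool.Agent.W744.GL.S_SPLIT := by
  intro ι w hw
  set A : Set ι := {i | ‖w i‖ ≤ 1} with hAd
  have him : ∀ i, 0 < (w i).im := fun i => hw.1 i (Set.mem_univ i)
  have hsub : ∀ B : Set ι, BlaOn w B := by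
    intro B
    refine ⟨fun i _ => him i, ?_⟩
    have h := hw.2
    have h2 : Summable (fun i : ι => PH (w i) I) := by
      rw [← (Equiv.Set.univ ι).summable_iff]
      exact h
    exact h2.subtype B
  obtain ⟨C, hCA, hC⟩ := half (hsub A) (fun i hi => hi)
  have hB : BlaOn (fun i => -(w i)⁻¹) Aᶜ := by
    refine ⟨fun i _ => im_inv (him i), ?_⟩
    refine (hsub Aᶜ).2.congr ?_
    intro i
    have h1 := PH_inv (him i) (b := I) (by simp)
    rw [neg_inv_I] at h1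
    exact h1.symm
  have hBn : ∀ i ∈ Aᶜ, ‖(fun i => -(w i)⁻¹) i‖ ≤ 1 := by
    intro i hi
    simp only [norm_neg, norm_inv]
    have : 1 < ‖w i‖ := by
      rw [hAd, Set.mem_compl_iff, Set.mem_ofPred_eq, not_le] at hi
      exact hi
    exact inv_le_one_of_one_le₀ this.le
  obtain ⟨D, hDA, hD⟩ := half hB hBn
  refine ⟨A, C, D, hCA, hDA, ?_⟩
  intro e he
  obtain ⟨c1, c2⟩ := hC e he
  obtain ⟨d1, d2⟩ := hD (-e⁻¹) (im_inv he)
  rw [mu_inv (fun i _ => him i) he, mu_inv (fun i _ => him i) he] at d1 d2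
  exact ⟨c1, c2, d1, d2⟩

end Pool.Agent.W899.GL.SPLIT
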